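import Pool.Agent.H705.RO.Stm4

/-! FID: dyadic blocks, convergence and bound of the sum (helper738). -/

set_option autoImplicit false

open Finset Filter Topology
open Pool.Agent.H705.RO

namespace Pool.Agent.H738.RO

/-- the bound of one block -/
theorem block_bound (r : ℝ) (hr0 : 0 < r) (hr2 : r ^ 2 = 1 / 2) (E : ℝ) (hE : 0 ≤ E) (j l : ℕ) :
    Real.sqrt (E ^ 2 * ((j : ℝ) + l + 4) ^ 3 / 2 ^ l) ≤
      8 * E * ((j : ℝ) + 1) ^ (3 / 2 : ℝ) * ((1 + (l : ℝ)) ^ 2 * r ^ l) := by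
  have hj : (0 : ℝ) ≤ j := Nat.cast_nonneg j
  have hl : (0 : ℝ) ≤ l := Nat.cast_nonneg l
  have hq : (((j : ℝ) + 1) ^ (3 / 2 : ℝ)) ^ 2 = ((j : ℝ) + 1) ^ 3 := by
    rw [← Real.rpow_natCast, ← Real.rpow_mul (by positivity), ← Real.rpow_natCast]
    norm_num
  have hr : (r ^ l) ^ 2 = 1 / 2 ^ l := by
    rw [← pow_mul, mul_comm, pow_mul, hr2, one_div, one_div, inv_pow]
  rw [Real.sqrt_le_left (by positivity)]
  have e : (8 * E * ((j : ℝ) + 1) ^ (3 / 2 : ℝ) * ((1 + (l : ℝ)) ^ 2 * r ^ l)) ^ 2 =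
      E ^ 2 * (64 * ((j : ℝ) + 1) ^ 3 * (1 + (l : ℝ)) ^ 4) / 2 ^ l := by
    have : (8 * E * ((j : ℝ) + 1) ^ (3 / 2 : ℝ) * ((1 + (l : ℝ)) ^ 2 * r ^ l)) ^ 2 =
        64 * E ^ 2 * (((j : ℝ) + 1) ^ (3 / 2 : ℝ)) ^ 2 * ((1 + (l : ℝ)) ^ 4 * (r ^ l) ^ 2) := by
      ring
    rw [this, hq, hr]
    ring
  rw [e]
  have h1 : ((j : ℝ) + l + 4) ^ 3 ≤ 64 * ((j : ℝ) + 1) ^ 3 * (1 + (l : ℝ)) ^ 4 := by
    have h2 : (j : ℝ) + l + 4 ≤ 4 * (((j : ℝ) + 1) * (1 + (l : ℝ))) := by nlinarith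
    have h3 : ((j : ℝ) + l + 4) ^ 3 ≤ (4 * (((j : ℝ) + 1) * (1 + (l : ℝ)))) ^ 3 :=
      pow_le_pow_left₀ (by positivity) h2 3
    have h4 : (4 * (((j : ℝ) + 1) * (1 + (l : ℝ)))) ^ 3 =
        64 * ((j : ℝ) + 1) ^ 3 * (1 + (l : ℝ)) ^ 3 := by ring
    have h5 : (1 + (l : ℝ)) ^ 3 ≤ (1 + (l : ℝ)) ^ 4 :=
      pow_le_pow_right₀ (by linarith) (by norm_num)
    rw [h4] at h3
    exact h3.trans (mul_le_mul_of_nonneg_left h5 (by positivity))
  apply div_le_div_of_nonneg_right _ (by positivity)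
  exact mul_le_mul_of_nonneg_left h1 (by positivity)

theorem T_FID : P_FID := by
  obtain ⟨r, hr0, hr1, hr2⟩ : ∃ r : ℝ, 0 < r ∧ r < 1 ∧ r ^ 2 = 1 / 2 := by
    refine ⟨(Real.sqrt 2)⁻¹, by positivity, ?_, ?_⟩
    · apply inv_lt_one_of_one_lt₀
      rw [Real.lt_sqrt (by norm_num)]
      norm_num
    · rw [inv_pow, Real.sq_sqrt (by norm_num), one_div]
  set w : ℕ → ℝ := fun i => (1 + (i : ℝ)) ^ 2 * r ^ i with hw
  have hw0 : ∀ i, 0 ≤ w i := fun i => by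
    simp only [hw]
    positivity
  have hsum : Summable w := by
    have hn : ‖r‖ < 1 := by rw [Real.norm_of_nonneg hr0.le]; exact hr1
    have h1 := summable_pow_mul_geometric_of_norm_lt_one 1 hn
    have h2 := summable_geometric_of_lt_one hr0.le hr1
    have h3 := summable_pow_mul_geometric_of_norm_lt_one 2 hn
    have h4 := (h2.add (h1.mul_left 2)).add h3
    refine h4.congr fun i => ?_
    simp only [hw]
    ring
  have hc0 : 0 ≤ ∑' i, w i := tsum_nonneg hw0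
  have hlim := tendsto_sum_nat_add w
  have hsumJ : ∀ J, Summable fun i => w (i + J) := fun J => (summable_nat_add_iff J).2 hsum
  refine ⟨8 * (∑' i, w i) + 1, by positivity, ?_⟩
  intro s E j hE hblk
  set C : ℝ := 8 * E * ((j : ℝ) + 1) ^ (3 / 2 : ℝ) with hC
  have hC0 : 0 ≤ C := by positivity
  have key : ∀ J d M' : ℕ, 2 ^ J - 1 ≤ M' → M' ≤ 2 ^ (J + d) - 1 →
      |∑ n ∈ Ico (2 ^ J - 1) M', s n| ≤ C * ∑ i ∈ range d, w (i + J) := by
    intro J d
    induction d with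
    | zero =>
      intro M' h1 h2
      have h3 : M' = 2 ^ J - 1 := le_antisymm h2 h1
      rw [h3]
      simp
    | succ d ih =>
      intro M' h1 h2
      rw [sum_range_succ, mul_add]
      rcases le_total M' (2 ^ (J + d) - 1) with h3 | h3
      · have h4 := ih M' h1 h3
        have h5 : 0 ≤ C * w (d + J) := mul_nonneg hC0 (hw0 _)
        linarith
      · have h4 : 2 ^ J - 1 ≤ 2 ^ (J + d) - 1 :=
          Nat.sub_le_sub_right (Nat.pow_le_pow_right (by norm_num) (by omega)) 1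
        have h5 := ih (2 ^ (J + d) - 1) h4 le_rfl
        have h6 := hblk (J + d) M' h3 h2
        have h7 : ∑ n ∈ Ico (2 ^ J - 1) M', s n =
            ∑ n ∈ Ico (2 ^ J - 1) (2 ^ (J + d) - 1), s n +
              ∑ n ∈ Ico (2 ^ (J + d) - 1) M', s n :=
          (sum_Ico_consecutive s h4 h3).symm
        have h8 := block_bound r hr0 hr2 E hE j (J + d)
        have h9 : C * w (d + J) = 8 * E * ((j : ℝ) + 1) ^ (3 / 2 : ℝ) *
            ((1 + ((J + d : ℕ) : ℝ)) ^ 2 * r ^ (J + d)) := by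
          simp only [hw, hC]
          rw [add_comm d J]
        rw [h7, h9]
        have h13 := abs_add_le (∑ n ∈ Ico (2 ^ J - 1) (2 ^ (J + d) - 1), s n)
          (∑ n ∈ Ico (2 ^ (J + d) - 1) M', s n)
        have h14 := h6.trans h8
        linarith
  have key2 : ∀ J M' : ℕ, 2 ^ J - 1 ≤ M' →
      |∑ n ∈ Ico (2 ^ J - 1) M', s n| ≤ C * ∑' i, w (i + J) := by
    intro J M' h1
    have h2 : M' ≤ 2 ^ (J + M') - 1 := by
      have h3 : M' < 2 ^ (J + M') :=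
        (Nat.lt_two_pow_self).trans_le (Nat.pow_le_pow_right (by norm_num) (by omega))
      omega
    exact (key J M' M' h1 h2).trans (mul_le_mul_of_nonneg_left
      ((hsumJ J).sum_le_tsum _ fun i _ => hw0 _) hC0)
  have hsub : ∀ M M' : ℕ, M ≤ M' → ∑ n ∈ Ico M M', s n =
      ∑ n ∈ range M', s n - ∑ n ∈ range M, s n := fun M M' h =>
    Finset.sum_Ico_eq_sub s h
  have hlimC : Tendsto (fun J => C * ∑' i, w (i + J)) atTop (𝓝 0) := by
    have := hlim.const_mul C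
    rwa [mul_zero] at this
  obtain ⟨S, hS⟩ : ∃ S : ℝ, Tendsto (fun N => ∑ n ∈ range N, s n) atTop (𝓝 S) := by
    refine cauchySeq_tendsto_of_complete (Metric.cauchySeq_iff'.2 fun ε hε => ?_)
    obtain ⟨J, hJ⟩ := (hlimC.eventually (gt_mem_nhds hε)).exists
    refine ⟨2 ^ J - 1, fun n hn => ?_⟩
    rw [Real.dist_eq, ← hsub _ _ hn]
    exact (key2 J n hn).trans_lt hJ
  refine ⟨S, hS, ?_⟩
  have h1 : |S| ≤ C * ∑' i, w i := by
    refine le_of_tendsto hS.abs (Eventually.of_forall fun N => ?_)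
    have h2 := key2 0 N (by simp)
    rw [pow_zero, Nat.sub_self, hsub 0 N (Nat.zero_le N), range_zero, sum_empty, sub_zero] at h2
    exact h2
  refine h1.trans ?_
  have h3 : 0 ≤ E * ((j : ℝ) + 1) ^ (3 / 2 : ℝ) := by positivity
  rw [hC]
  nlinarith

end Pool.Agent.H738.RO
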